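import Pool.Agent.Q283.EN.Stm2

/-!
# Project EN (helper283), job CFEW: `S_CFEW`. Author of this file: helper222.
-/

set_option autoImplicit false

namespace Pool.Agent.Q222.EN

open NumberField IsDedekindDomain
open Pool.Agent.Q7.LK
open Pool.Agent.Q7.CE
open Pool.Agent.Q283.EN

section cubes

variable {F : Type} [Field F] {n : ℕ}

theorem pow_mul' {a b : F} (h1 : IsPow n a) (h2 : IsPow n b) : IsPow n (a * b) := by
  obtain ⟨x, rfl⟩ := h1
  obtain ⟨y, rfl⟩ := h2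
  exact ⟨x * y, (mul_pow x y n).symm⟩

theorem pow_div' {a b : F} (h1 : IsPow n a) (h2 : IsPow n b) : IsPow n (a / b) := by
  obtain ⟨x, rfl⟩ := h1
  obtain ⟨y, rfl⟩ := h2
  exact ⟨x / y, (div_pow x y n).symm⟩

theorem pow_self (x : F) : IsPow n (x ^ n) := ⟨x, rfl⟩

end cubes

theorem cfew (hELOC : Pool.Agent.Q7.CE.S_ELOC) (hEKUM2 : Pool.Agent.Q7.CE.S_EKUM2) :
    Pool.Agent.Q283.EN.S_CFEW := by
  intro F _ _ om D hom hD hcube r hN f hf
  obtain ⟨b, hb1, -, hb3⟩ := hN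
  obtain ⟨a, ha1, -, ha3⟩ := hEKUM2 F om D hom hD (3 ^ r + 1) f hf
  -- all the elements `a i * D ^ j` have the property
  have hP : ∀ (i : Fin (3 ^ r + 1)) (j : ℕ) (v : HeightOneSpectrum (𝓞 F)), AE v D (a i * D ^ j) := by
    intro i j v
    induction j with
    | zero => rw [pow_zero, mul_one]; exact ha1 i v
    | succ j ih => rw [pow_succ, ← mul_assoc]; exact (hELOC F v D hD).2.2.1 _ ih
  choose g hg using fun x : Fin (3 ^ r + 1) × Fin 3 => hb3 _ (hP x.1 x.2)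
  have hcard : Fintype.card (Fin (3 ^ (r + 1))) < Fintype.card (Fin (3 ^ r + 1) × Fin 3) := by
    rw [Fintype.card_prod, Fintype.card_fin, Fintype.card_fin, Fintype.card_fin, pow_succ]
    omega
  obtain ⟨x, y, hxy, hgxy⟩ := Fintype.exists_ne_map_eq_of_card_lt g hcard
  have hv : Nonempty (HeightOneSpectrum (𝓞 F)) := by
    by_contra hne
    have hdeg : IsField (𝓞 F) := by
      by_contra hnf
      obtain ⟨I, hI⟩ := Ring.exists_maximal_of_not_isField hnf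
      exact hne ⟨⟨I, hI.2.isPrime, hI.1⟩⟩
    exact NumberField.RingOfIntegers.not_isField F hdeg
  obtain ⟨v⟩ := hv
  have ha0 : ∀ i, a i ≠ 0 := fun i => (ha1 i v).1
  have hb0 : ∀ i, b i ≠ 0 := fun i => (hb1 i v).1
  have hq : IsPow 3 ((a x.1 * D ^ (x.2 : ℕ)) / (a y.1 * D ^ (y.2 : ℕ))) := by
    have h1 := hg x
    have h2 := hg y
    rw [hgxy] at h1
    have h3 := pow_div' h1 h2
    have e : (a x.1 * D ^ (x.2 : ℕ) / b (g y)) / (a y.1 * D ^ (y.2 : ℕ) / b (g y)) =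
        (a x.1 * D ^ (x.2 : ℕ)) / (a y.1 * D ^ (y.2 : ℕ)) := by
      have := hb0 (g y)
      have := ha0 y.1
      field_simp
    rwa [e] at h3
  have hDc : ∀ j : ℕ, 1 ≤ j → j ≤ 2 → ¬ IsPow 3 (D ^ j) := by
    intro j h1 h2 h3
    have h4 : j = 1 ∨ j = 2 := by omega
    rcases h4 with rfl | rfl
    · rw [pow_one] at h3
      exact hcube h3
    · apply hcube
      have h5 := pow_div' (pow_self (n := 3) D) h3
      have e : D ^ 3 / D ^ 2 = D := by field_simp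
      rwa [e] at h5
  have hne : x.1 ≠ y.1 := by
    intro he
    rw [he] at hq
    have e : (a y.1 * D ^ (x.2 : ℕ)) / (a y.1 * D ^ (y.2 : ℕ)) = D ^ (x.2 : ℕ) / D ^ (y.2 : ℕ) := by
      have := ha0 y.1
      field_simp
    rw [e] at hq
    have hne2 : (x.2 : ℕ) ≠ y.2 := fun h => hxy (Prod.ext he (Fin.ext h))
    have hx3 := x.2.2
    have hy3 := y.2.2
    rcases lt_or_gt_of_ne hne2 with h | h
    · have h5 := pow_div' (pow_self (n := 3) (1 : F)) hq
      have e2 : (1 : F) ^ 3 / (D ^ (x.2 : ℕ) / D ^ (y.2 : ℕ)) = D ^ ((y.2 : ℕ) - x.2) := by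
        rw [pow_sub₀ D hD h.le]
        field_simp
      rw [e2] at h5
      exact hDc _ (by omega) (by omega) h5
    · have e2 : D ^ (x.2 : ℕ) / D ^ (y.2 : ℕ) = D ^ ((x.2 : ℕ) - y.2) := by
        rw [pow_sub₀ D hD h.le]
        field_simp
      rw [e2] at hq
      exact hDc _ (by omega) (by omega) hq
  refine ⟨x.1, y.1, hne, ha3 x.1 y.1 ((x.2 : ℕ) + 2 * y.2) ?_⟩
  have h5 := pow_mul' hq (pow_self (n := 3) (D ^ (y.2 : ℕ)))
  have e : (a x.1 * D ^ (x.2 : ℕ)) / (a y.1 * D ^ (y.2 : ℕ)) * (D ^ (y.2 : ℕ)) ^ 3 =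
      a x.1 / a y.1 * D ^ ((x.2 : ℕ) + 2 * y.2) := by
    have := ha0 y.1
    have hz : D ^ (y.2 : ℕ) ≠ 0 := pow_ne_zero _ hD
    rw [pow_add, mul_comm 2 (y.2 : ℕ), pow_mul]
    field_simp
  rwa [e] at h5

end Pool.Agent.Q222.EN
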